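import Pool.Agent.Helper85.KN.Main
import Pool.Agent.Helper85.KN.MuPg

/-!
# The quantities `P_t` and `R_t`
-/

namespace Pool.Agent.Helper85.KN2

open Finset Pool.Agent.Helper85.KN

variable {ι : Type*} [Fintype ι] [DecidableEq ι]

/-- `P_t`: the mean of `C(⌊∑ j_i/b_i⌋, t)`. -/
noncomputable def Pt (b : ι → ℕ) (t : ℕ) : ℝ := E b univ (G t 0) 0

/-- The function `C(k - 1, t)`, `0` for `k = 0`. -/
noncomputable def rf (t k : ℕ) : ℝ := if k = 0 then 0 else (Nat.choose (k - 1) t : ℝ)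

/-- `R_t`. -/
noncomputable def Rt (b : ι → ℕ) (t : ℕ) : ℝ := PB (pp b) univ (rf t)

/-- `Z`. -/
noncomputable def Zt (b : ι → ℕ) : ℝ := ∏ i, (b i : ℝ)⁻¹

theorem rf_zero (t : ℕ) : rf t 0 = 0 := by simp [rf]

theorem rf_succ (t k : ℕ) : rf t (k + 1) = (Nat.choose k t : ℝ) := by simp [rf]

theorem rf_nonneg (t k : ℕ) : 0 ≤ rf t k := by
  unfold rf
  split_ifs <;> positivity

theorem rf_pos {t : ℕ} (ht : 1 ≤ t) (k : ℕ) : rf t k = (Nat.choose (k - 1) t : ℝ) := by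
  rcases k with _ | k
  · rw [rf_zero]
    obtain ⟨s, rfl⟩ : ∃ s, t = s + 1 := ⟨t - 1, by omega⟩
    simp
  · rw [rf_succ, Nat.add_sub_cancel]

theorem E_one (b : ι → ℕ) (hb : ∀ i, 1 ≤ b i) (s : Finset ι) (y : ℝ) :
    E b s (fun _ ↦ 1) y = 1 := by
  induction s using Finset.induction_on with
  | empty => rw [E_empty]
  | insert i s hi ih =>
    have hT : T (b i) (fun _ ↦ (1 : ℝ)) = fun _ ↦ 1 := by
      funext x
      have : (b i : ℝ) ≠ 0 := by have := hb i; positivity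
      simp [T, this]
    rw [E_insert b s i hi, hT, ih]

theorem Pt_zero (b : ι → ℕ) (hb : ∀ i, 1 ≤ b i) : Pt b 0 = 1 := by
  unfold Pt
  have : G 0 0 = fun _ ↦ (1 : ℝ) := funext (G_zero_left 0)
  rw [this, E_one b hb]

omit [Fintype ι] in
theorem PB_ind (p : ι → ℝ) (s : Finset ι) :
    PB p s (fun k ↦ if k = 0 then 1 else 0) = ∏ i ∈ s, (1 - p i) := by
  induction s using Finset.induction_on with
  | empty => rw [PB_empty]; simp
  | insert i s hi ih =>
    rw [PB_insert p s i hi, ih, Finset.prod_insert hi]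
    have : PB p s (fun k ↦ if k + 1 = 0 then (1 : ℝ) else 0) = 0 := by
      unfold PB
      apply Finset.sum_eq_zero
      intro K _
      simp
    rw [this]
    ring

omit [DecidableEq ι] in
theorem Zt_eq (b : ι → ℕ) : Zt b = ∏ i, (1 - pp b i) := by
  unfold Zt pp
  simp

theorem Rt_zero (b : ι → ℕ) : Rt b 0 = 1 - Zt b := by
  have h : Rt b 0 = PB (pp b) univ (fun k ↦ 1 - if k = 0 then (1 : ℝ) else 0) := by
    unfold Rt
    apply PB_congr
    intro k _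
    unfold rf
    split_ifs <;> simp
  rw [h, PB_sub, PB_one, PB_ind, Zt_eq]

omit [DecidableEq ι] in
theorem Zt_nonneg (b : ι → ℕ) : 0 ≤ Zt b := Finset.prod_nonneg fun i _ ↦ by positivity

theorem Rt_nonneg (b : ι → ℕ) (hb : ∀ i, 1 ≤ b i) (t : ℕ) : 0 ≤ Rt b t :=
  PB_nonneg _ _ _ (fun i _ ↦ pp_mem b hb i) fun k _ ↦ rf_nonneg t k

/-- `R_t / C(M, t)` is nonincreasing. -/
theorem Rt_anti (b : ι → ℕ) (hb : ∀ i, 1 ≤ b i) (M t : ℕ) (hM : Fintype.card ι = M + 1)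
    (ht : t + 1 ≤ M) :
    Rt b (t + 1) / (Nat.choose M (t + 1) : ℝ) ≤ Rt b t / (Nat.choose M t : ℝ) := by
  have h0 : (0 : ℝ) < (Nat.choose M (t + 1) : ℝ) := by
    exact_mod_cast Nat.choose_pos ht
  have h1 : (0 : ℝ) < (Nat.choose M t : ℝ) := by
    exact_mod_cast Nat.choose_pos (by omega : t ≤ M)
  rw [div_eq_inv_mul, div_eq_inv_mul]
  unfold Rt
  rw [← PB_smul, ← PB_smul]
  apply PB_mono _ _ _ _ (fun i _ ↦ pp_mem b hb i)
  intro k hk
  rw [card_univ, hM] at hk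
  rcases k with _ | k
  · simp [rf_zero]
  · rw [rf_succ, rf_succ, inv_mul_le_iff₀ h0, ← mul_assoc, mul_comm _ ((Nat.choose M t : ℝ)⁻¹),
      mul_assoc, le_inv_mul_iff₀ h1]
    have hkM : k ≤ M := by omega
    have e1 : (Nat.choose k (t + 1) : ℝ) * (t + 1) = (Nat.choose k t : ℝ) * ((k - t : ℕ) : ℝ) := by
      exact_mod_cast Nat.choose_succ_right_eq k t
    have e2 : (Nat.choose M (t + 1) : ℝ) * (t + 1) = (Nat.choose M t : ℝ) * ((M - t : ℕ) : ℝ) := by
      exact_mod_cast Nat.choose_succ_right_eq M t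
    have h3 : ((k - t : ℕ) : ℝ) ≤ ((M - t : ℕ) : ℝ) := by
      exact_mod_cast Nat.sub_le_sub_right hkM t
    have ht1 : (0 : ℝ) < (t : ℝ) + 1 := by positivity
    have h4 : (Nat.choose M t : ℝ) * (Nat.choose k (t + 1) : ℝ) * ((t : ℝ) + 1) ≤
        (Nat.choose M (t + 1) : ℝ) * (Nat.choose k t : ℝ) * ((t : ℝ) + 1) := by
      have e3 : (Nat.choose M t : ℝ) * (Nat.choose k (t + 1) : ℝ) * ((t : ℝ) + 1) =
          (Nat.choose M t : ℝ) * (Nat.choose k t : ℝ) * ((k - t : ℕ) : ℝ) := by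
        rw [mul_assoc, e1]; ring
      have e4 : (Nat.choose M (t + 1) : ℝ) * (Nat.choose k t : ℝ) * ((t : ℝ) + 1) =
          (Nat.choose M t : ℝ) * (Nat.choose k t : ℝ) * ((M - t : ℕ) : ℝ) := by
        rw [mul_right_comm, e2]; ring
      rw [e3, e4]
      exact mul_le_mul_of_nonneg_left h3 (by positivity)
    exact le_of_mul_le_mul_right h4 ht1

end Pool.Agent.Helper85.KN2
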