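import Pool.Agent.Helper85.KN2.D1

/-!
# The inequalities between `P_t` and `R_t`, for `t = 1, 2`, and the differences
-/

namespace Pool.Agent.Helper85.KN2

open Finset Pool.Agent.Helper85.KN

variable {ι : Type*} [Fintype ι] [DecidableEq ι]

/-- **D4.** -/
theorem diff_zero_one (b : ι → ℕ) (M : ℕ) (hM : Fintype.card ι = M + 1)
    (hM1 : 1 ≤ M) (z : ℝ) (hz : ∀ i, z ≤ (b i : ℝ)⁻¹) :
    ((M : ℝ) + 1) / M * (z - Zt b) ≤
      Rt b 0 / (Nat.choose M 0 : ℝ) - Rt b 1 / (Nat.choose M 1 : ℝ) := by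
  have hM0 : (0 : ℝ) < M := by exact_mod_cast hM1
  have h1 : Rt b 0 - (M : ℝ)⁻¹ * Rt b 1 = (M : ℝ)⁻¹ *
      (PB (pp b) univ (fun k ↦ (((univ : Finset ι).card : ℝ) - k) * 1) -
        ((M : ℝ) + 1) * PB (pp b) univ (fun k ↦ if k = 0 then 1 else 0)) := by
    unfold Rt
    rw [← PB_smul, ← PB_smul, ← PB_sub, ← PB_sub, ← PB_smul]
    apply PB_congr
    intro k hk
    rw [card_univ, hM]
    rcases k with _ | k
    · rw [rf_zero, rf_zero]
      simp
    · rw [rf_succ, rf_succ, if_neg (by omega), Nat.choose_zero_right, Nat.choose_one_right]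
      push_cast
      field_simp
      ring
  rw [← PB_FA, PB_ind, ← Zt_eq] at h1
  have h2 : ((M : ℝ) + 1) * z ≤ ∑ i, (1 - pp b i) * PB (pp b) (univ.erase i) (fun _ ↦ 1) := by
    have : ∀ i ∈ (univ : Finset ι), z ≤ (1 - pp b i) * PB (pp b) (univ.erase i) (fun _ ↦ 1) := by
      intro i _
      rw [PB_one, mul_one]
      unfold pp
      rw [sub_sub_cancel]
      exact hz i
    have h3 := Finset.sum_le_sum this
    rw [Finset.sum_const, card_univ, hM, nsmul_eq_mul] at h3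
    push_cast at h3
    exact h3
  rw [Nat.choose_zero_right, Nat.choose_one_right, Nat.cast_one, div_one, div_eq_inv_mul (Rt b 1),
    h1, div_mul_eq_mul_div, div_le_iff₀ hM0, mul_comm _ (M : ℝ), ← mul_assoc,
    mul_inv_cancel₀ hM0.ne', one_mul]
  linarith

/-- Monotonicity in the left out index. -/
theorem PB_erase_le (b : ι → ℕ) (hb : ∀ i, 1 ≤ b i) (i₀ i : ι) (hi : b i ≤ b i₀) (f : ℕ → ℝ)
    (hf : ∀ k, f k ≤ f (k + 1)) :
    PB (pp b) (univ.erase i₀) f ≤ PB (pp b) (univ.erase i) f := by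
  by_cases h : i = i₀
  · rw [h]
  · have hm1 : i ∈ (univ : Finset ι).erase i₀ := mem_erase.2 ⟨h, mem_univ _⟩
    have hm2 : i₀ ∈ (univ : Finset ι).erase i := mem_erase.2 ⟨fun h' ↦ h h'.symm, mem_univ _⟩
    rw [PB_erase (pp b) _ i hm1, PB_erase (pp b) _ i₀ hm2, erase_right_comm (a := i₀) (b := i)]
    set S := ((univ : Finset ι).erase i).erase i₀
    have h1 : PB (pp b) S f ≤ PB (pp b) S (fun k ↦ f (k + 1)) :=
      PB_mono _ _ _ _ (fun l _ ↦ pp_mem b hb l) (fun k _ ↦ hf k)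
    have h2 : pp b i ≤ pp b i₀ := by
      unfold pp
      have := inv_anti₀ (by have := hb i; positivity : (0 : ℝ) < b i) (by exact_mod_cast hi :
        (b i : ℝ) ≤ b i₀)
      linarith
    nlinarith

/-- `E (k' - 1)⁺`. -/
noncomputable def Ek (b : ι → ℕ) (i₀ : ι) : ℝ := PB (pp b) (univ.erase i₀) (fun k ↦ ((k - 1 : ℕ) : ℝ))

theorem Ek_nonneg (b : ι → ℕ) (hb : ∀ i, 1 ≤ b i) (i₀ : ι) : 0 ≤ Ek b i₀ :=
  PB_nonneg _ _ _ (fun l _ ↦ pp_mem b hb l) fun k _ ↦ by positivity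

/-- **D5.** -/
theorem diff_one_two (b : ι → ℕ) (hb : ∀ i, 1 ≤ b i) (M : ℕ) (hM : Fintype.card ι = M + 1)
    (hM1 : 2 ≤ M) (i₀ : ι) (h₀ : ∀ i, b i ≤ b i₀) :
    ((M : ℝ) + 1) * ((b i₀ : ℝ)⁻¹ * Ek b i₀) / (M * (M - 1)) ≤
      Rt b 1 / (Nat.choose M 1 : ℝ) - Rt b 2 / (Nat.choose M 2 : ℝ) := by
  have hM2 : (2 : ℝ) ≤ M := by exact_mod_cast hM1
  have hM0 : (0 : ℝ) < M := by linarith
  have hM3 : (0 : ℝ) < (M : ℝ) * (M - 1) := mul_pos hM0 (by linarith)
  have hM4 : (M : ℝ) - 1 ≠ 0 := by linarith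
  have h1 : Rt b 1 / (Nat.choose M 1 : ℝ) - Rt b 2 / (Nat.choose M 2 : ℝ) =
      ((M : ℝ) * (M - 1))⁻¹ *
        PB (pp b) univ (fun k ↦ (((univ : Finset ι).card : ℝ) - k) * ((k - 1 : ℕ) : ℝ)) := by
    unfold Rt
    rw [div_eq_inv_mul, div_eq_inv_mul, ← PB_smul, ← PB_smul, ← PB_sub, ← PB_smul]
    apply PB_congr
    intro k hk
    rw [card_univ, hM]
    rcases k with _ | k
    · rw [rf_zero, rf_zero]
      simp
    · rw [rf_succ, rf_succ, Nat.choose_one_right, Nat.choose_one_right, Nat.cast_choose_two,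
        Nat.cast_choose_two, Nat.add_sub_cancel]
      push_cast
      field_simp
      ring
  rw [h1, ← PB_FA, div_eq_inv_mul]
  apply mul_le_mul_of_nonneg_left _ (by positivity)
  have h2 : ∀ i ∈ (univ : Finset ι), (b i₀ : ℝ)⁻¹ * Ek b i₀ ≤
      (1 - pp b i) * PB (pp b) (univ.erase i) (fun k ↦ ((k - 1 : ℕ) : ℝ)) := by
    intro i _
    have e1 : 1 - pp b i = (b i : ℝ)⁻¹ := by unfold pp; ring
    rw [e1]
    apply mul_le_mul
    · exact inv_anti₀ (by have := hb i; positivity) (by exact_mod_cast h₀ i)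
    · exact PB_erase_le b hb i₀ i (h₀ i) _ (fun k ↦ by
        have : k - 1 ≤ k + 1 - 1 := by omega
        exact_mod_cast this)
    · exact Ek_nonneg b hb i₀
    · positivity
  have h3 := Finset.sum_le_sum h2
  rw [Finset.sum_const, card_univ, hM, nsmul_eq_mul] at h3
  push_cast at h3
  exact h3

theorem E_G_one (b : ι → ℕ) (hb : ∀ i, 1 ≤ b i) (s : Finset ι) :
    ∀ y : ℝ, E b s (fun x ↦ x) y = y + ∑ i ∈ s, pp b i / 2 := by
  induction s using Finset.induction_on with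
  | empty => intro y; rw [E_empty]; simp
  | insert i s hi ih =>
    intro y
    have hb0 : (b i : ℝ) ≠ 0 := by have := hb i; positivity
    have hT : T (b i) (fun x ↦ x) = fun x ↦ 1 * x + pp b i / 2 * 1 := by
      funext x
      unfold T
      rw [Finset.sum_add_distrib, Finset.sum_const, card_range, nsmul_eq_mul,
        ← Finset.sum_div]
      have : (∑ k ∈ range (b i), (k : ℝ)) = (b i : ℝ) * ((b i : ℝ) - 1) / 2 := by
        obtain ⟨m, hm⟩ : ∃ m, b i = m + 1 := ⟨b i - 1, by have := hb i; omega⟩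
        rw [hm, sum_pow1]
        push_cast
        ring
      rw [this]
      unfold pp
      field_simp
    rw [E_insert b s i hi, hT, E_lin b s (fun x ↦ x) (fun _ ↦ 1), ih, E_one b hb,
      Finset.sum_insert hi]
    ring

theorem floor_choose_one (y : ℝ) (hy : 0 ≤ y) : G 1 1 y = y := by
  have h := G_one 0 ⌊y⌋₊ (y - ⌊y⌋₊) (by linarith [Nat.floor_le hy])
    (by linarith [Nat.lt_floor_add_one y])
  rw [add_sub_cancel] at h
  simp only [zero_add, Nat.choose_one_right, Nat.choose_zero_right, Nat.cast_one, mul_one] at h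
  rw [h]
  ring

theorem Pt_le (b : ι → ℕ) (hb : ∀ i, 1 ≤ b i) (t : ℕ) (s : Finset ι) (i₀ : ι) (hi : i₀ ∈ s) :
    E b s (G t 0) 0 ≤ E b (s.erase i₀) (G t 1) 0 := by
  rw [E_erase b s i₀ hi]
  apply E_le b _ _ _ 0 le_rfl
  intro x _
  rw [G_succ]
  exact T_le_integral (b i₀) (hb i₀) _ (G_mono t 0) x

/-- **D2.** -/
theorem Pt_one (b : ι → ℕ) (hb : ∀ i, 1 ≤ b i) (i₀ : ι) :
    Pt b 1 ≤ Rt b 1 / 2 + ((b i₀ : ℝ)⁻¹ - Zt b) / 2 := by
  have h1 : Pt b 1 ≤ ∑ i ∈ univ.erase i₀, pp b i / 2 := by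
    refine (Pt_le b hb 1 univ i₀ (mem_univ _)).trans ?_
    have h2 := E_le b (univ.erase i₀) (G 1 1) (fun x ↦ x) 0 le_rfl
      (fun x hx ↦ (floor_choose_one x hx).le)
    rw [E_G_one b hb, zero_add] at h2
    exact h2
  have h2 : Rt b 1 = (∑ i, pp b i) - 1 + Zt b := by
    have e : Rt b 1 = PB (pp b) univ (fun k ↦ ((Nat.choose k 1 : ℝ) - 1) +
        if k = 0 then (1 : ℝ) else 0) := by
      unfold Rt
      apply PB_congr
      intro k _
      rcases k with _ | k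
      · rw [rf_zero]; simp
      · rw [rf_succ, if_neg (by omega), Nat.choose_one_right, Nat.choose_one_right]
        push_cast
        ring
    rw [e, PB_add, PB_sub, PB_one, PB_choose_one, PB_ind, Zt_eq]
  rw [h2, ← Finset.add_sum_erase univ (pp b) (mem_univ i₀)]
  rw [← Finset.sum_div] at h1
  have e1 : pp b i₀ = 1 - (b i₀ : ℝ)⁻¹ := rfl
  rw [e1]
  linarith

theorem hr_two (k : ℕ) : hr 2 k = if k = 0 then 0 else 1 / 12 := by
  unfold hr Pool.Agent.Helper87.KN.h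
  rcases k with _ | k
  · have h1 : Pool.Agent.Helper87.KN.c (0 + 2) 2 = 0 := Pool.Agent.Helper87.KN.c_self 2 (by norm_num)
    have h2 : Pool.Agent.Helper87.KN.c (0 + 1) 2 = 0 := Pool.Agent.Helper87.KN.c_of_lt (by norm_num)
    have h3 : Pool.Agent.Helper87.KN.c 0 (2 - 1) = 0 := Pool.Agent.Helper87.KN.c_of_lt (by norm_num)
    rw [h1, h2, h3]
    simp
  · have h1 : Pool.Agent.Helper87.KN.c (k + 1 + 2) 2 = ((k : ℚ) + 1) * (3 * (k + 1) + 1) / 24 := by
      rw [show k + 1 + 2 = 2 + (k + 1) by ring, Pool.Agent.Helper87.KN.c_add,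
        Pool.Agent.Helper87.KN.a_n2]
      push_cast
      ring
    have h2 : Pool.Agent.Helper87.KN.c (k + 1 + 1) 2 = (k : ℚ) * (3 * k + 1) / 24 := by
      rw [show k + 1 + 1 = 2 + k by ring, Pool.Agent.Helper87.KN.c_add,
        Pool.Agent.Helper87.KN.a_n2]
    have h3 : Pool.Agent.Helper87.KN.c (k + 1) (2 - 1) = (k : ℚ) / 2 := by
      rw [show k + 1 = (2 - 1) + k by ring, Pool.Agent.Helper87.KN.c_add]
      exact Pool.Agent.Helper87.KN.a_n1 k
    have h4 : Pool.Agent.Helper87.KN.c (k + 1 - 1) (2 - 2) = 1 := by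
      rw [Nat.add_sub_cancel, show k = (2 - 2) + k by ring, Pool.Agent.Helper87.KN.c_add]
      exact Pool.Agent.Helper87.KN.a_zero_left k
    rw [h1, h2, h3, h4, if_pos (by omega), if_neg (by omega)]
    push_cast
    ring

theorem cr_two (k : ℕ) : cr (k + 2) 2 = (k : ℝ) * (3 * k + 1) / 24 := by
  unfold cr
  rw [show k + 2 = 2 + k by ring, Pool.Agent.Helper87.KN.c_add, Pool.Agent.Helper87.KN.a_n2]
  push_cast
  ring

theorem rho_two (M : ℕ) (hM : 2 ≤ M) :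
    (Pool.Agent.Helper87.KN.rho 2 M : ℝ) = (3 * (M : ℝ) - 2) / (12 * M) := by
  obtain ⟨m, rfl⟩ : ∃ m, M = m + 2 := ⟨M - 2, by omega⟩
  unfold Pool.Agent.Helper87.KN.rho
  have h1 := cr_two (m + 1)
  unfold cr at h1
  push_cast
  rw [show m + 2 + 1 = m + 1 + 2 by ring, h1, Nat.cast_choose_two]
  push_cast
  have : (m : ℝ) + 2 ≠ 0 := by positivity
  have h2 : (m : ℝ) + 2 - 1 = m + 1 := by ring
  have : (m : ℝ) + 1 ≠ 0 := by positivity
  rw [h2]
  field_simp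
  ring

/-- **D3.** -/
theorem Pt_two (b : ι → ℕ) (hb : ∀ i, 1 ≤ b i) (M : ℕ) (hM : Fintype.card ι = M + 1)
    (hM1 : 2 ≤ M) (i₀ : ι) (h₀ : ∀ i, b i ≤ b i₀) :
    Pt b 2 ≤ (Pool.Agent.Helper87.KN.rho 2 M : ℝ) * Rt b 2 +
      (b i₀ : ℝ)⁻¹ * Ek b i₀ * ((M : ℝ) - 1) / (6 * M) := by
  have hM2 : (2 : ℝ) ≤ M := by exact_mod_cast hM1
  have hM0 : (0 : ℝ) < M := by linarith
  set s := (univ : Finset ι).erase i₀ with hs
  have hcard : s.card = M := by
    rw [hs, card_erase_of_mem (mem_univ _), card_univ, hM, Nat.add_sub_cancel]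
  set z : ℝ := (b i₀ : ℝ)⁻¹ with hz
  have hz0 : 0 ≤ z := by positivity
  have hp : ∀ i ∈ s, 0 ≤ pp b i ∧ pp b i ≤ 1 := fun i _ ↦ pp_mem b hb i
  have hzp : ∀ i, z ≤ 1 - pp b i := by
    intro i
    unfold pp
    rw [sub_sub_cancel]
    exact inv_anti₀ (by have := hb i; positivity) (by exact_mod_cast h₀ i)
  set F : ℕ → ℝ := fun k ↦ ((k - 1 : ℕ) : ℝ) / (12 * M) with hF
  have hstep := sum_step 2 le_rfl b hb s
  rw [hcard] at hstep
  -- the polynomial part
  have h1 : PB (pp b) s (fun k ↦ cr (k + 1) 2) =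
      (3 * (M : ℝ) - 2) / (12 * M) * PB (pp b) s (fun k ↦ (Nat.choose k 2 : ℝ)) -
        ∑ i ∈ s, (1 - pp b i) * PB (pp b) (s.erase i) F := by
    rw [PB_FA, ← PB_smul, ← PB_sub, hcard]
    apply PB_congr
    intro k _
    rcases k with _ | k
    · have : cr (0 + 1) 2 = 0 := by
        unfold cr
        rw [Pool.Agent.Helper87.KN.c_of_lt (by norm_num)]
        simp
      rw [this, hF]
      simp
    · rw [show k + 1 + 1 = k + 2 by ring, cr_two, Nat.cast_choose_two, hF]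
      simp only [Nat.add_sub_cancel]
      push_cast
      field_simp
      ring
  -- the lower bound
  have h2 : z * ((M : ℝ) * PB (pp b) s (fun k ↦ ((k - 1 : ℕ) : ℝ)) / 12) ≤
      (M : ℝ) * (∑ i ∈ s, (1 - pp b i) * PB (pp b) (s.erase i) F) +
        ∑ i ∈ s, (1 - pp b i) * pp b i * PB (pp b) (s.erase i) (hr 2) := by
    have e1 : (M : ℝ) * PB (pp b) s (fun k ↦ ((k - 1 : ℕ) : ℝ)) / 12 =
        (M : ℝ) * ((∑ i ∈ s, pp b i * PB (pp b) (s.erase i) F) +
          ∑ i ∈ s, (1 - pp b i) * PB (pp b) (s.erase i) F) +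
          ∑ i ∈ s, pp b i * PB (pp b) (s.erase i) (hr 2) := by
      have e0 : (M : ℝ) * PB (pp b) s (fun k ↦ ((k - 1 : ℕ) : ℝ)) / 12 =
          PB (pp b) s (fun k ↦ (M : ℝ) / 12 * ((k - 1 : ℕ) : ℝ)) := by
        rw [PB_smul]; ring
      rw [e0, PB_FA, PB_FB, PB_FB, ← PB_add, ← PB_smul (pp b) s (M : ℝ), ← PB_add, hcard]
      apply PB_congr
      intro k _
      rw [hF]
      rcases k with _ | _ | k
      · simp
      · simp [hr_two]
      · rw [hr_two, if_neg (by omega)]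
        simp only [Nat.add_sub_cancel]
        push_cast
        field_simp
        ring
    rw [e1, ← Finset.sum_add_distrib, Finset.mul_sum, ← Finset.sum_add_distrib, Finset.mul_sum,
      Finset.mul_sum, ← Finset.sum_add_distrib]
    apply Finset.sum_le_sum
    intro i hi
    have hq : ∀ l ∈ s.erase i, 0 ≤ pp b l ∧ pp b l ≤ 1 := fun l _ ↦ pp_mem b hb l
    have a1 : 0 ≤ PB (pp b) (s.erase i) F := PB_nonneg _ _ F hq (fun k _ ↦ by
      rw [hF]; positivity)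
    have a2 : 0 ≤ PB (pp b) (s.erase i) (hr 2) := PB_nonneg _ _ _ hq (fun k _ ↦ by
      rw [hr_two]; split_ifs <;> norm_num)
    have a3 : 0 ≤ (M : ℝ) * PB (pp b) (s.erase i) F := mul_nonneg hM0.le a1
    have a4 : 0 ≤ pp b i * PB (pp b) (s.erase i) (hr 2) := mul_nonneg (hp i hi).1 a2
    have a5 := mul_le_mul_of_nonneg_right (hzp i) a3
    have a6 := mul_le_mul_of_nonneg_right (hzp i) a4
    nlinarith
  -- `R_2`
  have h3 : Rt b 2 = PB (pp b) s (fun k ↦ (Nat.choose k 2 : ℝ)) -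
      z * PB (pp b) s (fun k ↦ ((k - 1 : ℕ) : ℝ)) := by
    have e2 : PB (pp b) s (rf 2) = PB (pp b) s (fun k ↦ (Nat.choose k 2 : ℝ)) -
        PB (pp b) s (fun k ↦ ((k - 1 : ℕ) : ℝ)) := by
      rw [← PB_sub]
      apply PB_congr
      intro k _
      rcases k with _ | k
      · rw [rf_zero]; simp
      · rw [rf_succ, Nat.add_sub_cancel, Nat.cast_choose_two, Nat.cast_choose_two]
        push_cast
        ring
    have e3 : PB (pp b) s (fun k ↦ rf 2 (k + 1)) = PB (pp b) s (fun k ↦ (Nat.choose k 2 : ℝ)) := by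
      apply PB_congr
      intro k _
      rw [rf_succ]
    have e4 : pp b i₀ = 1 - z := rfl
    unfold Rt
    rw [PB_erase (pp b) univ i₀ (mem_univ _), e2, e3, e4]
    ring
  have h4 : Pt b 2 ≤ E b s (G 2 1) 0 := Pt_le b hb 2 univ i₀ (mem_univ _)
  rw [h1] at hstep
  rw [rho_two M hM1, h3]
  unfold Ek
  rw [← hs]
  set A := PB (pp b) s (fun k ↦ (Nat.choose k 2 : ℝ))
  set B := PB (pp b) s (fun k ↦ ((k - 1 : ℕ) : ℝ))
  set S1 := ∑ i ∈ s, (1 - pp b i) * PB (pp b) (s.erase i) F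
  set S2 := ∑ i ∈ s, (1 - pp b i) * pp b i * PB (pp b) (s.erase i) (hr 2)
  have h5 : (M : ℝ) * E b s (G 2 1) 0 ≤
      (M : ℝ) * ((3 * (M : ℝ) - 2) / (12 * M) * A - z * B / 12) := by
    have : (M : ℝ) * ((3 * (M : ℝ) - 2) / (12 * M) * A - S1) - S2 ≤
        (M : ℝ) * ((3 * (M : ℝ) - 2) / (12 * M) * A - z * B / 12) := by
      have e5 : z * ((M : ℝ) * B / 12) = (M : ℝ) * (z * B / 12) := by ring
      rw [e5] at h2
      linarith
    exact hstep.trans this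
  have h6 := le_of_mul_le_mul_left h5 hM0
  refine (h4.trans h6).trans (le_of_eq ?_)
  field_simp
  ring

end Pool.Agent.Helper85.KN2
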