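import Pool.Agent.Helper85.KN2.D2

/-!
# The inequality between `P_t` and `R_t`, for `t ≥ 3`
-/

namespace Pool.Agent.Helper85.KN2

open Finset Pool.Agent.Helper85.KN

variable {ι : Type*} [Fintype ι] [DecidableEq ι]

theorem E_filter (b : ι → ℕ) (hb : ∀ i, 1 ≤ b i) (φ : ℝ → ℝ) (s : Finset ι) (y : ℝ) :
    E b s φ y = E b (s.filter fun i ↦ 2 ≤ b i) φ y := by
  induction s using Finset.induction_on generalizing φ with
  | empty => simp
  | insert i s hi ih =>
    by_cases h : 2 ≤ b i
    · rw [Finset.filter_insert, if_pos h, E_insert b s i hi, E_insert b _ i (by simp [hi]), ih]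
    · have h1 : b i = 1 := by have := hb i; omega
      have hT : T (b i) φ = φ := by
        funext x
        unfold T
        rw [h1]
        simp
      rw [Finset.filter_insert, if_neg h, E_insert b s i hi, hT, ih]

omit [Fintype ι] in
theorem PB_filter (b : ι → ℕ) (hb : ∀ i, 1 ≤ b i) (f : ℕ → ℝ) (s : Finset ι) :
    PB (pp b) s f = PB (pp b) (s.filter fun i ↦ 2 ≤ b i) f := by
  induction s using Finset.induction_on generalizing f with
  | empty => simp
  | insert i s hi ih =>
    by_cases h : 2 ≤ b i
    · rw [Finset.filter_insert, if_pos h, PB_insert _ s i hi, PB_insert _ _ i (by simp [hi]), ih f,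
        ih (fun k ↦ f (k + 1))]
    · have h1 : b i = 1 := by have := hb i; omega
      have hp : pp b i = 0 := by unfold pp; rw [h1]; simp
      rw [Finset.filter_insert, if_neg h, PB_insert _ s i hi, hp, ih f]
      ring

theorem E_congr (a b : ι → ℕ) (s : Finset ι) (h : ∀ i ∈ s, a i = b i) (φ : ℝ → ℝ) (y : ℝ) :
    E a s φ y = E b s φ y := by
  induction s using Finset.induction_on generalizing φ with
  | empty => rw [E_empty, E_empty]
  | insert i s hi ih =>
    rw [E_insert a s i hi, E_insert b s i hi, h i (mem_insert_self _ _),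
      ih (fun l hl ↦ h l (mem_insert_of_mem hl))]

omit [Fintype ι] in
theorem PB_congr_p (p q : ι → ℝ) (s : Finset ι) (h : ∀ i ∈ s, p i = q i) (f : ℕ → ℝ) :
    PB p s f = PB q s f := by
  induction s using Finset.induction_on generalizing f with
  | empty => rw [PB_empty, PB_empty]
  | insert i s hi ih =>
    have hs := fun l hl ↦ h l (mem_insert_of_mem hl)
    rw [PB_insert p s i hi, PB_insert q s i hi, h i (mem_insert_self _ _), ih hs f,
      ih hs (fun k ↦ f (k + 1))]

theorem rho_mono {t m M : ℕ} (h1 : t ≤ m) (h2 : m ≤ M) :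
    (Pool.Agent.Helper87.KN.rho t m : ℝ) ≤ (Pool.Agent.Helper87.KN.rho t M : ℝ) := by
  obtain ⟨i, rfl⟩ : ∃ i, m = t + i := ⟨m - t, by omega⟩
  obtain ⟨j, rfl⟩ : ∃ j, M = t + j := ⟨M - t, by omega⟩
  rw [Pool.Agent.Helper87.KN.rho_add, Pool.Agent.Helper87.KN.rho_add]
  exact_mod_cast Pool.Agent.Helper87.KN.R_mono' t (by omega : i ≤ j)

/-- **D1.** -/
theorem Pt_ge_three (b : ι → ℕ) (hb : ∀ i, 1 ≤ b i) (M t : ℕ) (hM : Fintype.card ι = M + 1)
    (ht : 3 ≤ t) (htM : t ≤ M) :
    Pt b t ≤ (Pool.Agent.Helper87.KN.rho t M : ℝ) * Rt b t := by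
  have hR := Rt_nonneg b hb t
  set S := (univ : Finset ι).filter fun i ↦ 2 ≤ b i with hS
  have hP : Pt b t = E b S (G t 0) 0 := E_filter b hb _ _ _
  rcases S.eq_empty_or_nonempty with he | hne
  · have h0 : Pt b t = 0 := by
      rw [hP, he, E_empty, G_zero, Nat.floor_zero]
      obtain ⟨s, rfl⟩ : ∃ s, t = s + 1 := ⟨t - 1, by omega⟩
      simp
    rw [h0]
    have : (0 : ℝ) ≤ (Pool.Agent.Helper87.KN.rho t M : ℝ) := by
      exact_mod_cast Pool.Agent.Helper87.KN.rho_nonneg t M
    positivity
  · obtain ⟨i₀, hi₀, hmax⟩ := Finset.exists_max_image S b hne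
    set s := S.erase i₀ with hs
    have hsc : s.card = S.card - 1 := card_erase_of_mem hi₀
    have hP1 : Pt b t ≤ E b s (G t 1) 0 := by
      rw [hP]
      exact Pt_le b hb t S i₀ hi₀
    set a : ι → ℕ := fun i ↦ if 2 ≤ b i then b i else 2 with ha
    have hsb : ∀ i ∈ s, a i = b i := by
      intro i hi
      have h1 : i ∈ S := mem_of_mem_erase hi
      rw [hS, mem_filter] at h1
      rw [ha]
      simp only [h1.2, if_true]
    have ha2 : ∀ i, 2 ≤ a i := by
      intro i
      rw [ha]
      dsimp only
      split_ifs with h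
      · exact h
      · exact le_rfl
    rw [← E_congr a b s hsb] at hP1
    rcases Nat.lt_or_ge s.card t with hlt | hge
    · have h0 : E a s (G t 1) 0 ≤ 0 := by
        obtain ⟨m, rfl⟩ : ∃ m, t = m + 2 := ⟨t - 2, by omega⟩
        have h1 := E_le_PB a (fun i ↦ by have := ha2 i; omega) m s 0 0 le_rfl
        refine h1.trans (le_of_eq ?_)
        unfold PB
        apply Finset.sum_eq_zero
        intro K hK
        rw [mem_powerset] at hK
        have hc := card_le_card hK
        have : G (m + 2) (0 + 1 + K.card) 0 = 0 := by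
          rw [show 0 + 1 + K.card = K.card + 1 by ring, G_at_zero]
          unfold cr
          rcases Nat.lt_or_ge (K.card + 1) (m + 2) with h2 | h2
          · rw [Pool.Agent.Helper87.KN.c_of_lt h2]; simp
          · have h3 : K.card + 1 = m + 2 := by omega
            rw [h3, Pool.Agent.Helper87.KN.c_self (m + 2) (by omega)]; simp
        simp only [this, mul_zero]
      have : (0 : ℝ) ≤ (Pool.Agent.Helper87.KN.rho t M : ℝ) := by
        exact_mod_cast Pool.Agent.Helper87.KN.rho_nonneg t M
      exact (hP1.trans h0).trans (by positivity)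
    · have hz : ∀ i ∈ s, (b i₀ : ℝ)⁻¹ ≤ (a i : ℝ)⁻¹ := by
        intro i hi
        rw [hsb i hi]
        exact inv_anti₀ (by have := hb i; positivity)
          (by exact_mod_cast hmax i (mem_of_mem_erase hi))
      have h1 := final_all t ht a ha2 s hge (b i₀ : ℝ)⁻¹ (by positivity) hz
      have hpa : ∀ i ∈ s, pp a i = pp b i := by
        intro i hi
        unfold pp
        rw [hsb i hi]
      have h2 : Rt b t = PB (pp a) s (fun k ↦ (Nat.choose k t : ℝ)) -
          (b i₀ : ℝ)⁻¹ * PB (pp a) s (fun k ↦ (Nat.choose (k - 1) (t - 1) : ℝ)) := by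
        have e1 : Rt b t = PB (pp b) S (rf t) := PB_filter b hb _ _
        have e2 : PB (pp b) s (rf t) = PB (pp b) s (fun k ↦ (Nat.choose k t : ℝ)) -
            PB (pp b) s (fun k ↦ (Nat.choose (k - 1) (t - 1) : ℝ)) := by
          rw [← PB_sub]
          apply PB_congr
          intro k _
          obtain ⟨m, rfl⟩ : ∃ m, t = m + 2 := ⟨t - 2, by omega⟩
          rcases k with _ | k
          · rw [rf_zero]; simp
          · rw [rf_succ, Nat.add_sub_cancel, Nat.choose_succ_succ' k (m + 1)]
            push_cast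
            ring
        have e3 : PB (pp b) s (fun k ↦ rf t (k + 1)) =
            PB (pp b) s (fun k ↦ (Nat.choose k t : ℝ)) := by
          apply PB_congr
          intro k _
          rw [rf_succ]
        have e4 : pp b i₀ = 1 - (b i₀ : ℝ)⁻¹ := rfl
        rw [e1, PB_erase (pp b) S i₀ hi₀, ← hs, e2, e3, e4, PB_congr_p (pp a) (pp b) s hpa,
          PB_congr_p (pp a) (pp b) s hpa]
        ring
      rw [← h2] at h1
      have h3 : s.card ≤ M := by
        have := card_le_univ S
        rw [hM] at this
        omega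
      exact (hP1.trans h1).trans (mul_le_mul_of_nonneg_right (rho_mono hge h3) hR)

end Pool.Agent.Helper85.KN2
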