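import Mathlib

/-!
# A change of variables for the coefficients of a rational function
-/

namespace Pool.Agent.Helper85.KN2

open Finset PowerSeries

variable {k : Type*} [Field k]

theorem coeff_succ_one_sub (c : k) (F : PowerSeries k) (n : ℕ) :
    coeff (n + 1) ((1 - C c * X) * F) = coeff (n + 1) F - c * coeff n F := by
  rw [sub_mul, one_mul, map_sub, mul_assoc, coeff_C_mul, coeff_succ_X_mul]

theorem coeff_succ_sub (c : k) (F : PowerSeries k) (n : ℕ) :
    coeff (n + 1) (((1 + X) - C c * X) * F) = coeff (n + 1) ((1 + X) * F) - c * coeff n F := by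
  rw [sub_mul, map_sub, mul_assoc (C c), coeff_C_mul, coeff_succ_X_mul]

/-- `v = 1/(1+X)`. -/
noncomputable def vv (k : Type*) [Field k] : PowerSeries k := (1 + X)⁻¹

theorem one_add_mul_vv : (1 + X : PowerSeries k) * vv k = 1 := by
  unfold vv
  exact PowerSeries.mul_inv_cancel _ (by simp)

theorem constCoeff_vv : constantCoeff (vv k) = 1 := by
  have h := congrArg (constantCoeff (R := k)) (one_add_mul_vv (k := k))
  rw [map_mul] at h
  simpa using h

/-- `∏ 1/(1 - c_i X)`. -/
noncomputable def iv {β : Type*} (T : Finset β) (c : β → k) : PowerSeries k :=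
  (∏ i ∈ T, (1 - C (c i) * X))⁻¹

theorem prod_const {β : Type*} (T : Finset β) (c : β → k) :
    constantCoeff (∏ i ∈ T, (1 - C (c i) * X)) = 1 := by
  rw [map_prod]
  apply Finset.prod_eq_one
  intro i _
  simp

theorem prod_mul_iv {β : Type*} (T : Finset β) (c : β → k) :
    (∏ i ∈ T, (1 - C (c i) * X)) * iv T c = 1 := by
  unfold iv
  exact PowerSeries.mul_inv_cancel _ (by rw [prod_const]; exact one_ne_zero)

theorem constCoeff_iv {β : Type*} (T : Finset β) (c : β → k) : constantCoeff (iv T c) = 1 := by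
  have h := congrArg (constantCoeff (R := k)) (prod_mul_iv T c)
  rw [map_mul, prod_const] at h
  simpa using h

theorem iv_insert {β : Type*} [DecidableEq β] (T : Finset β) (c : β → k) (i : β) (hi : i ∉ T) :
    (1 - C (c i) * X) * iv (insert i T) c = iv T c := by
  have h1 := prod_mul_iv (insert i T) c
  rw [Finset.prod_insert hi] at h1
  have h2 := prod_mul_iv T c
  calc (1 - C (c i) * X) * iv (insert i T) c
      = ((∏ i ∈ T, (1 - C (c i) * X)) * iv T c) * ((1 - C (c i) * X) * iv (insert i T) c) := by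
        rw [h2, one_mul]
    _ = iv T c * ((1 - C (c i) * X) * (∏ i ∈ T, (1 - C (c i) * X)) * iv (insert i T) c) := by
        ring
    _ = iv T c := by rw [h1, mul_one]

variable {α β : Type*}

/-- The left side. -/
noncomputable def Ls (S : Finset α) (T : Finset β) (z : α → k) (ε : β → k) (n : ℕ) : k :=
  coeff n ((∏ j ∈ S, (1 - C (z j) * X)) * iv T (fun i ↦ 1 + ε i))

/-- The right side. -/
noncomputable def Rs (S : Finset α) (T : Finset β) (z : α → k) (ε : β → k) (n : ℕ) : k :=
  coeff n ((∏ j ∈ S, (1 + C (1 - z j) * X)) * iv T ε * (1 + X) ^ (n + T.card) *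
    vv k ^ (S.card + 1))

theorem Ls_zero (S : Finset α) (T : Finset β) (z : α → k) (ε : β → k) : Ls S T z ε 0 = 1 := by
  unfold Ls
  rw [coeff_zero_eq_constantCoeff, map_mul, prod_const, constCoeff_iv, mul_one]

theorem Rs_zero (S : Finset α) (T : Finset β) (z : α → k) (ε : β → k) : Rs S T z ε 0 = 1 := by
  unfold Rs
  rw [coeff_zero_eq_constantCoeff, map_mul, map_mul, map_mul, map_pow, map_pow, constCoeff_iv,
    constCoeff_vv, map_prod]
  have : ∏ x ∈ S, constantCoeff (1 + C (1 - z x) * X : PowerSeries k) = 1 := by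
    apply Finset.prod_eq_one
    intro i _
    simp
  rw [this]
  simp

theorem base (n : ℕ) (z : α → k) (ε : β → k) : Ls ∅ ∅ z ε n = Rs ∅ ∅ z ε n := by
  rcases n with _ | n
  · rw [Ls_zero, Rs_zero]
  · unfold Ls Rs iv
    simp only [Finset.prod_empty, Finset.card_empty, zero_add, pow_one, add_zero]
    have h1 : ((1 : PowerSeries k))⁻¹ = 1 := by
      rw [PowerSeries.inv_eq_iff_mul_eq_one (by simp)]
      simp
    rw [h1, mul_one, one_mul, pow_succ, mul_assoc, one_add_mul_vv, mul_one]
    have h2 : ((1 + X : PowerSeries k)) ^ n = ((1 + Polynomial.X : Polynomial k) ^ n : Polynomial k) := by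
      push_cast
      rfl
    rw [h2, Polynomial.coeff_coe, add_comm (1 : Polynomial k), Polynomial.coeff_X_add_one_pow,
      Nat.choose_succ_self]
    simp [coeff_one]

theorem stepS [DecidableEq α] (S : Finset α) (T : Finset β) (z : α → k) (ε : β → k) (j : α)
    (hj : j ∉ S) (h : ∀ n, Ls S T z ε n = Rs S T z ε n) (n : ℕ) :
    Ls (insert j S) T z ε n = Rs (insert j S) T z ε n := by
  rcases n with _ | n
  · rw [Ls_zero, Rs_zero]
  · have h1 : Ls (insert j S) T z ε (n + 1) = Ls S T z ε (n + 1) - z j * Ls S T z ε n := by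
      unfold Ls
      rw [Finset.prod_insert hj, mul_assoc, coeff_succ_one_sub]
    have h2 : Rs (insert j S) T z ε (n + 1) = Rs S T z ε (n + 1) - z j * Rs S T z ε n := by
      unfold Rs
      rw [Finset.prod_insert hj, card_insert_of_notMem hj]
      have e1 : (1 + C (1 - z j) * X : PowerSeries k) = (1 + X) - C (z j) * X := by
        rw [map_sub, map_one]; ring
      set F := (∏ j ∈ S, (1 + C (1 - z j) * X)) * iv T ε
      have e2 : (1 + C (1 - z j) * X : PowerSeries k) * (∏ j ∈ S, (1 + C (1 - z j) * X)) * iv T ε *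
          (1 + X) ^ (n + 1 + T.card) * vv k ^ (S.card + 1 + 1) =
          ((1 + X) - C (z j) * X) * (F * (1 + X) ^ (n + 1 + T.card) * vv k ^ (S.card + 1 + 1)) := by
        rw [← e1]; ring
      rw [e2, coeff_succ_sub]
      congr 2
      · calc (1 + X) * (F * (1 + X) ^ (n + 1 + T.card) * vv k ^ (S.card + 1 + 1))
            = F * (1 + X) ^ (n + 1 + T.card) * vv k ^ (S.card + 1) * ((1 + X) * vv k) := by ring
          _ = _ := by rw [one_add_mul_vv, mul_one]
      · congr 1
        calc F * (1 + X) ^ (n + 1 + T.card) * vv k ^ (S.card + 1 + 1)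
            = F * (1 + X) ^ (n + T.card) * vv k ^ (S.card + 1) * ((1 + X) * vv k) := by ring
          _ = _ := by rw [one_add_mul_vv, mul_one]
    rw [h1, h2, h, h]

theorem stepT [DecidableEq β] (S : Finset α) (T : Finset β) (z : α → k) (ε : β → k) (i : β)
    (hi : i ∉ T) (h : ∀ n, Ls S T z ε n = Rs S T z ε n) (n : ℕ) :
    Ls S (insert i T) z ε n = Rs S (insert i T) z ε n := by
  induction n with
  | zero => rw [Ls_zero, Rs_zero]
  | succ n ih =>
    have h1 : Ls S T z ε (n + 1) = Ls S (insert i T) z ε (n + 1) -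
        (1 + ε i) * Ls S (insert i T) z ε n := by
      unfold Ls
      rw [← iv_insert T (fun i ↦ 1 + ε i) i hi, mul_left_comm, coeff_succ_one_sub]
    have h2 : Rs S T z ε (n + 1) = Rs S (insert i T) z ε (n + 1) -
        (1 + ε i) * Rs S (insert i T) z ε n := by
      unfold Rs
      rw [← iv_insert T ε i hi, card_insert_of_notMem hi]
      set F := (∏ j ∈ S, (1 + C (1 - z j) * X)) * iv (insert i T) ε
      have e1 : (1 - C (ε i) * X : PowerSeries k) = (1 + X) - C (1 + ε i) * X := by
        rw [map_add, map_one]; ring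
      have e2 : (∏ j ∈ S, (1 + C (1 - z j) * X : PowerSeries k)) *
          ((1 - C (ε i) * X) * iv (insert i T) ε) *
          (1 + X) ^ (n + 1 + T.card) * vv k ^ (S.card + 1) =
          ((1 + X) - C (1 + ε i) * X) * (F * (1 + X) ^ (n + 1 + T.card) * vv k ^ (S.card + 1)) := by
        rw [← e1]; ring
      rw [e2, coeff_succ_sub]
      congr 2
      · ring
      · congr 1
        ring
    rw [h, ih] at *
    rw [h2] at h1
    exact (sub_left_injective h1).symm

/-- The change of variables. -/
theorem change [DecidableEq α] [DecidableEq β] (S : Finset α) (T : Finset β) (z : α → k)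
    (ε : β → k) : ∀ n, Ls S T z ε n = Rs S T z ε n := by
  induction S using Finset.induction_on with
  | empty =>
    induction T using Finset.induction_on with
    | empty => exact fun n ↦ base n z ε
    | insert i T hi ih => exact stepT ∅ T z ε i hi ih
  | insert j S hj ih => exact stepS S T z ε j hj ih

/-- The case `|S| = n + |T|`. -/
theorem change' [DecidableEq α] [DecidableEq β] (S : Finset α) (T : Finset β) (z : α → k)
    (ε : β → k) (n : ℕ) (h : S.card = n + T.card) :
    coeff n ((∏ j ∈ S, (1 - C (z j) * X)) * iv T (fun i ↦ 1 + ε i)) =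
      coeff n ((∏ j ∈ S, (1 + C (1 - z j) * X)) * vv k * iv T ε) := by
  have h1 := change S T z ε n
  unfold Ls Rs at h1
  rw [h1, h]
  congr 1
  have h2 : ((1 + X : PowerSeries k)) ^ (n + T.card) * vv k ^ (n + T.card) = 1 := by
    rw [← mul_pow, one_add_mul_vv, one_pow]
  calc (∏ j ∈ S, (1 + C (1 - z j) * X)) * iv T ε * (1 + X) ^ (n + T.card) *
        vv k ^ (n + T.card + 1)
      = (∏ j ∈ S, (1 + C (1 - z j) * X)) * vv k * iv T ε *
        ((1 + X) ^ (n + T.card) * vv k ^ (n + T.card)) := by ring
    _ = _ := by rw [h2, mul_one]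

end Pool.Agent.Helper85.KN2
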