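import Pool.Agent.Helper85.KN2.D1
import Pool.Agent.Helper85.KN2.E1

/-!
# The coefficients of the numerator
-/

namespace Pool.Agent.Helper85.KN2

open Finset PowerSeries Pool.Agent.Helper85.KN

theorem coeff_vv (t : ℕ) : coeff t (vv ℝ) = (-1) ^ t := by
  induction t with
  | zero => rw [coeff_zero_eq_constantCoeff, constCoeff_vv, pow_zero]
  | succ t ih =>
    have h := congrArg (coeff (R := ℝ) (t + 1)) (one_add_mul_vv (k := ℝ))
    rw [add_mul, one_mul, map_add, coeff_succ_X_mul, ih, coeff_one, if_neg (by omega)] at h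
    rw [pow_succ]
    linarith

theorem coeff_pow (m t : ℕ) : coeff t ((1 + X : PowerSeries ℝ) ^ m) = (Nat.choose m t : ℝ) := by
  have h2 : ((1 + X : PowerSeries ℝ)) ^ m = ((1 + Polynomial.X : Polynomial ℝ) ^ m : Polynomial ℝ) := by
    push_cast
    rfl
  rw [h2, Polynomial.coeff_coe, add_comm (1 : Polynomial ℝ), Polynomial.coeff_X_add_one_pow]

/-- the coefficient of `(1+X)^k/(1+X)` -/
theorem coeff_pow_vv (k t : ℕ) : coeff t ((1 + X : PowerSeries ℝ) ^ k * vv ℝ) =
    rf t k + (-1) ^ t * (if k = 0 then 1 else 0) := by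
  rcases k with _ | k
  · rw [pow_zero, one_mul, coeff_vv, rf_zero]
    simp
  · rw [pow_succ, mul_assoc, one_add_mul_vv, mul_one, coeff_pow, rf_succ]
    simp

variable {ι : Type*} [DecidableEq ι]

theorem coeff_num_aux (p : ι → ℝ) (s : Finset ι) (t : ℕ) : ∀ m : ℕ,
    coeff t ((∏ j ∈ s, (1 + C (p j) * X)) * ((1 + X : PowerSeries ℝ) ^ m * vv ℝ)) =
      PB p s (fun k ↦ coeff t ((1 + X : PowerSeries ℝ) ^ (k + m) * vv ℝ)) := by
  induction s using Finset.induction_on with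
  | empty => intro m; rw [PB_empty]; simp
  | insert i s hi ih =>
    intro m
    have e1 : (1 + C (p i) * X : PowerSeries ℝ) = C (1 - p i) + C (p i) * (1 + X) := by
      rw [map_sub, map_one]; ring
    have e2 : (∏ j ∈ insert i s, (1 + C (p j) * X)) * ((1 + X : PowerSeries ℝ) ^ m * vv ℝ) =
        C (1 - p i) * ((∏ j ∈ s, (1 + C (p j) * X)) * ((1 + X : PowerSeries ℝ) ^ m * vv ℝ)) +
        C (p i) * ((∏ j ∈ s, (1 + C (p j) * X)) * ((1 + X : PowerSeries ℝ) ^ (m + 1) * vv ℝ)) := by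
      rw [Finset.prod_insert hi, e1]; ring
    rw [e2, map_add, coeff_C_mul, coeff_C_mul, ih, ih, PB_insert p s i hi]
    congr 3
    funext k
    rw [show k + 1 + m = k + (m + 1) by ring]

/-- The coefficient of the numerator. -/
theorem coeff_num [Fintype ι] (b : ι → ℕ) (t : ℕ) :
    coeff t ((∏ j, (1 + C (1 - (b j : ℝ)⁻¹) * X)) * vv ℝ) = Rt b t + (-1) ^ t * Zt b := by
  have h := coeff_num_aux (pp b) univ t 0
  rw [pow_zero, one_mul] at h
  have e : (∏ j, (1 + C (1 - (b j : ℝ)⁻¹) * X : PowerSeries ℝ)) =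
      ∏ j, (1 + C (pp b j) * X) := rfl
  rw [e, h]
  have h2 : (fun k ↦ coeff t ((1 + X : PowerSeries ℝ) ^ (k + 0) * vv ℝ)) =
      fun k ↦ rf t k + (-1) ^ t * (if k = 0 then 1 else 0) := by
    funext k
    rw [add_zero, coeff_pow_vv]
  rw [h2, PB_add, PB_smul, PB_ind, ← Zt_eq]
  rfl

/-- Formula (b), with the coefficients of `∏ 1/(1 - ε_i X)`. -/
theorem mu_formula [Fintype ι] {β : Type*} [Fintype β] [DecidableEq β] (b : ι → ℕ) (ε : β → ℝ)
    (n : ℕ) (h : Fintype.card ι = n + Fintype.card β) :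
    coeff n ((∏ j, (1 - C ((b j : ℝ)⁻¹) * X)) * iv univ (fun i ↦ 1 + ε i)) =
      ∑ t ∈ range (n + 1), coeff (n - t) (iv univ ε) * (Rt b t + (-1) ^ t * Zt b) := by
  rw [change' univ univ (fun j ↦ (b j : ℝ)⁻¹) ε n (by rw [card_univ, card_univ, h]), coeff_mul,
    Finset.Nat.sum_antidiagonal_eq_sum_range_succ_mk]
  apply Finset.sum_congr rfl
  intro t _
  rw [coeff_num, mul_comm]

end Pool.Agent.Helper85.KN2
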