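import Pool.Agent.Helper85.KN2.E1

/-!
# The sum of the coefficients of the Hilbert series
-/

namespace Pool.Agent.Helper85.KN2

open Finset PowerSeries

variable {k : Type*} [Field k]

/-- The sum of the first coefficients. -/
noncomputable def cum (F : PowerSeries k) (L : ℕ) : k := ∑ l ∈ range (L + 1), coeff l F

theorem cum_add (F G : PowerSeries k) (L : ℕ) : cum (F + G) L = cum F L + cum G L := by
  unfold cum
  simp only [map_add, Finset.sum_add_distrib]

theorem cum_sum {α : Type*} (s : Finset α) (F : α → PowerSeries k) (L : ℕ) :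
    cum (∑ i ∈ s, F i) L = ∑ i ∈ s, cum (F i) L := by
  unfold cum
  simp only [map_sum]
  exact Finset.sum_comm

theorem cum_X_pow_mul (F : PowerSeries k) (s L : ℕ) :
    cum (X ^ s * F) L = if s ≤ L then cum F (L - s) else 0 := by
  unfold cum
  simp only [coeff_X_pow_mul']
  split_ifs with h
  · obtain ⟨m, rfl⟩ : ∃ m, L = s + m := ⟨L - s, by omega⟩
    rw [Nat.add_sub_cancel_left, show s + m + 1 = s + (m + 1) by ring, Finset.sum_range_add]
    have h1 : ∑ x ∈ range s, (if s ≤ x then coeff (x - s) F else 0) = 0 := by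
      apply Finset.sum_eq_zero
      intro x hx
      rw [mem_range] at hx
      rw [if_neg (by omega)]
    rw [h1, zero_add]
    apply Finset.sum_congr rfl
    intro x _
    rw [if_pos (by omega), Nat.add_sub_cancel_left]
  · apply Finset.sum_eq_zero
    intro x hx
    rw [mem_range] at hx
    rw [if_neg (by omega)]

/-- `1/(1-X^D)^n`. -/
noncomputable def Un (k : Type*) [Field k] (D n : ℕ) : PowerSeries k := ((1 - X ^ D) ^ n)⁻¹

theorem one_sub_mul_Un (D n : ℕ) (hD : 0 < D) : (1 - X ^ D : PowerSeries k) ^ n * Un k D n = 1 := by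
  unfold Un
  apply PowerSeries.mul_inv_cancel
  simp [hD.ne']

theorem Un_succ (D n : ℕ) (hD : 0 < D) : Un k D (n + 1) = Un k D n + X ^ D * Un k D (n + 1) := by
  have h1 := one_sub_mul_Un (k := k) D (n + 1) hD
  have h2 := one_sub_mul_Un (k := k) D n hD
  have h3 : (1 - X ^ D : PowerSeries k) * Un k D (n + 1) = Un k D n := by
    calc (1 - X ^ D : PowerSeries k) * Un k D (n + 1)
        = ((1 - X ^ D) ^ n * Un k D n) * ((1 - X ^ D) * Un k D (n + 1)) := by rw [h2, one_mul]
      _ = Un k D n * ((1 - X ^ D) ^ (n + 1) * Un k D (n + 1)) := by ring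
      _ = Un k D n := by rw [h1, mul_one]
  rw [← h3]
  ring

theorem Un_zero (D : ℕ) : Un k D 0 = 1 := by
  have h2 : (1 - X ^ D : PowerSeries k) ^ 0 * Un k D 0 = 1 := by
    unfold Un
    apply PowerSeries.mul_inv_cancel
    simp
  rwa [pow_zero, one_mul] at h2

theorem cum_Un (D : ℕ) (hD : 0 < D) (n : ℕ) : ∀ L, cum (Un k D n) L = (Nat.choose (L / D + n) n : k) := by
  induction n with
  | zero =>
    intro L
    rw [Un_zero]
    unfold cum
    simp [coeff_one]
  | succ n ihn =>
    intro L
    induction L using Nat.strong_induction_on with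
    | _ L ih =>
      rw [Un_succ D n hD, cum_add, ihn, cum_X_pow_mul]
      split_ifs with h
      · rw [ih (L - D) (by omega)]
        obtain ⟨m, rfl⟩ : ∃ m, L = m + D := ⟨L - D, by omega⟩
        rw [Nat.add_sub_cancel, Nat.add_div_right m hD]
        have e1 : (m / D).succ + n = m / D + n + 1 := by omega
        have e2 : (m / D).succ + (n + 1) = m / D + n + 1 + 1 := by omega
        have e3 : m / D + (n + 1) = m / D + n + 1 := by omega
        rw [e1, e2, e3, Nat.choose_succ_succ' (m / D + n + 1) n]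
        push_cast
        ring
      · rw [Nat.div_eq_of_lt (by omega)]
        simp

theorem geom_X (w m : ℕ) :
    (∑ t ∈ range m, (X : PowerSeries k) ^ (t * w)) * (1 - X ^ w) = 1 - X ^ (m * w) := by
  have h := geom_sum_mul_neg ((X : PowerSeries k) ^ w) m
  have e : ∀ t, ((X : PowerSeries k) ^ w) ^ t = X ^ (t * w) := fun t ↦ by
    rw [← pow_mul, mul_comm]
  simp only [e] at h
  exact h

variable {α β : Type*} [Fintype α] [Fintype β] [DecidableEq α] [DecidableEq β]

/-- The Hilbert series. -/
noncomputable def HS (k : Type*) [Field k] (w : α → ℕ) (d : β → ℕ) : PowerSeries k :=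
  (∏ i, (1 - X ^ d i)) * (∏ j, (1 - X ^ w j))⁻¹

omit [DecidableEq α] [DecidableEq β] in
theorem HS_eq (w b : α → ℕ) (e : β → ℕ) (D n : ℕ) (hD : 0 < D) (hw : ∀ j, 0 < w j)
    (hb : ∀ j, b j * w j = D) (hc : Fintype.card α = n + Fintype.card β) :
    HS k w (fun i ↦ e i * D) = (∏ j, ∑ t ∈ range (b j), (X : PowerSeries k) ^ (t * w j)) *
      (∏ i, ∑ t ∈ range (e i), (X : PowerSeries k) ^ (t * D)) * Un k D n := by
  have h1 : (∏ j, ∑ t ∈ range (b j), (X : PowerSeries k) ^ (t * w j)) * ∏ j, (1 - X ^ w j) =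
      (1 - X ^ D) ^ (n + Fintype.card β) := by
    rw [← Finset.prod_mul_distrib]
    have : ∀ j ∈ (univ : Finset α), (∑ t ∈ range (b j), (X : PowerSeries k) ^ (t * w j)) *
        (1 - X ^ w j) = 1 - X ^ D := fun j _ ↦ by rw [geom_X, hb]
    rw [Finset.prod_congr rfl this, Finset.prod_const, card_univ, hc]
  have h2 : (∏ i, ∑ t ∈ range (e i), (X : PowerSeries k) ^ (t * D)) * (1 - X ^ D) ^ Fintype.card β =
      ∏ i, (1 - X ^ (e i * D)) := by
    rw [← card_univ, ← Finset.prod_const, ← Finset.prod_mul_distrib]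
    exact Finset.prod_congr rfl fun i _ ↦ geom_X D (e i)
  have h3 := one_sub_mul_Un (k := k) D n hD
  unfold HS
  symm
  rw [PowerSeries.eq_mul_inv_iff_mul_eq]
  · calc (∏ j, ∑ t ∈ range (b j), (X : PowerSeries k) ^ (t * w j)) *
          (∏ i, ∑ t ∈ range (e i), X ^ (t * D)) * Un k D n * ∏ j, (1 - X ^ w j)
        = ((∏ j, ∑ t ∈ range (b j), (X : PowerSeries k) ^ (t * w j)) * ∏ j, (1 - X ^ w j)) *
          (∏ i, ∑ t ∈ range (e i), X ^ (t * D)) * Un k D n := by ring
      _ = ((∏ i, ∑ t ∈ range (e i), X ^ (t * D)) * (1 - X ^ D) ^ Fintype.card β) *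
          ((1 - X ^ D) ^ n * Un k D n) := by rw [h1, pow_add]; ring
      _ = _ := by rw [h2, h3, mul_one]
  · rw [map_prod]
    apply Finset.prod_ne_zero_iff.2
    intro j _
    simp [(hw j).ne']

omit [DecidableEq β] in
/-- Reflection of a box. -/
theorem sum_reflect {γ : Type*} [AddCommMonoid γ] (b : α → ℕ) (f : (α → ℕ) → γ) :
    ∑ x ∈ Fintype.piFinset (fun j ↦ range (b j)), f x =
      ∑ x ∈ Fintype.piFinset (fun j ↦ range (b j)), f (fun j ↦ b j - 1 - x j) := by
  apply Finset.sum_nbij' (fun x j ↦ b j - 1 - x j) (fun x j ↦ b j - 1 - x j)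
  · intro x hx
    simp only [Fintype.mem_piFinset, mem_range] at hx ⊢
    intro j
    have := hx j
    omega
  · intro x hx
    simp only [Fintype.mem_piFinset, mem_range] at hx ⊢
    intro j
    have := hx j
    omega
  · intro x hx
    simp only [Fintype.mem_piFinset, mem_range] at hx
    funext j
    have := hx j
    show b j - 1 - (b j - 1 - x j) = x j
    omega
  · intro x hx
    simp only [Fintype.mem_piFinset, mem_range] at hx
    funext j
    have := hx j
    show b j - 1 - (b j - 1 - x j) = x j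
    omega
  · intro x hx
    simp only [Fintype.mem_piFinset, mem_range] at hx
    congr 1
    funext j
    have := hx j
    show x j = b j - 1 - (b j - 1 - x j)
    omega

/-- The sum of the coefficients of the Hilbert series. -/
theorem cum_HS (w b : α → ℕ) (e : β → ℕ) (D n L : ℕ) (hD : 0 < D) (hw : ∀ j, 0 < w j)
    (hb : ∀ j, b j * w j = D) (hc : Fintype.card α = n + Fintype.card β)
    (hL : L + ∑ j, w j = ∑ i, e i * D) :
    cum (HS k w (fun i ↦ e i * D)) L =
      ((∑ x ∈ Fintype.piFinset (fun j ↦ range (b j)), ∑ y ∈ Fintype.piFinset (fun i ↦ range (e i)),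
        Nat.choose ((∑ j, x j * w j) / D + ∑ i, y i) n : ℕ) : k) := by
  have h1 : HS k w (fun i ↦ e i * D) =
      ∑ x ∈ Fintype.piFinset (fun j ↦ range (b j)), ∑ y ∈ Fintype.piFinset (fun i ↦ range (e i)),
        X ^ (∑ j, x j * w j + ∑ i, y i * D) * Un k D n := by
    rw [HS_eq w b e D n hD hw hb hc, Finset.prod_univ_sum, Finset.prod_univ_sum,
      Finset.sum_mul_sum, Finset.sum_mul]
    apply Finset.sum_congr rfl
    intro x _
    rw [Finset.sum_mul]
    apply Finset.sum_congr rfl
    intro y _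
    rw [Finset.prod_pow_eq_pow_sum, Finset.prod_pow_eq_pow_sum, pow_add]
  rw [h1, cum_sum, sum_reflect b]
  push_cast
  apply Finset.sum_congr rfl
  intro x hx
  rw [cum_sum, sum_reflect e]
  apply Finset.sum_congr rfl
  intro y hy
  simp only [Fintype.mem_piFinset, mem_range] at hx hy
  rw [cum_X_pow_mul]
  have key : ∑ j, (b j - 1 - x j) * w j + ∑ i, (e i - 1 - y i) * D +
      (∑ j, x j * w j + ∑ i, y i * D) = n * D + L := by
    have k1 : ∑ j, (b j - 1 - x j) * w j + ∑ j, x j * w j + ∑ j, w j =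
        (n + Fintype.card β) * D := by
      rw [← Finset.sum_add_distrib, ← Finset.sum_add_distrib, ← hc]
      have : ∀ j ∈ (univ : Finset α), (b j - 1 - x j) * w j + x j * w j + w j = D := by
        intro j _
        rw [← hb j]
        obtain ⟨m, hm⟩ : ∃ m, b j = x j + 1 + m := ⟨b j - (x j + 1), by have := hx j; omega⟩
        rw [hm, show x j + 1 + m - 1 - x j = m by omega]
        ring
      rw [Finset.sum_congr rfl this, Finset.sum_const, card_univ, smul_eq_mul]
    have k2 : ∑ i, (e i - 1 - y i) * D + ∑ i, y i * D + Fintype.card β * D = ∑ i, e i * D := by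
      rw [← card_univ, ← smul_eq_mul, ← Finset.sum_const, ← Finset.sum_add_distrib,
        ← Finset.sum_add_distrib]
      apply Finset.sum_congr rfl
      intro i _
      obtain ⟨m, hm⟩ : ∃ m, e i = y i + 1 + m := ⟨e i - (y i + 1), by have := hy i; omega⟩
      rw [hm, show y i + 1 + m - 1 - y i = m by omega]
      ring
    have k3 : (n + Fintype.card β) * D = n * D + Fintype.card β * D := by ring
    omega
  have hdiv : (∑ j, x j * w j + ∑ i, y i * D) / D = (∑ j, x j * w j) / D + ∑ i, y i := by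
    rw [← Finset.sum_mul, Nat.add_mul_div_right _ _ hD]
  rw [← hdiv]
  set s := ∑ j, (b j - 1 - x j) * w j + ∑ i, (e i - 1 - y i) * D
  set s' := ∑ j, x j * w j + ∑ i, y i * D
  split_ifs with h
  · have h2 : s' = (L - s) + n * D := by omega
    rw [cum_Un D hD, h2, Nat.add_mul_div_right _ _ hD]
  · have h2 : s' < n * D := by omega
    have h3 : s' / D < n := (Nat.div_lt_iff_lt_mul hD).2 h2
    rw [Nat.choose_eq_zero_of_lt h3, Nat.cast_zero]

end Pool.Agent.Helper85.KN2
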