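import Pool.Agent.Helper85.KN2.E2
import Pool.Agent.Helper85.KN2.E3
import Pool.Agent.Helper85.KN2.D3

/-!
# Formulas (a) and (b)
-/

namespace Pool.Agent.Helper85.KN2

open Finset PowerSeries Pool.Agent.Helper85.KN

/-- `∑_k C(ε, k)/(k+1) X^k`. -/
noncomputable def qs (ε : ℕ) : PowerSeries ℝ := mk fun m ↦ (Nat.choose ε m : ℝ) / (m + 1)

theorem sum_choose_range (m q : ℕ) :
    ∑ y ∈ range (m + 1), (Nat.choose y q : ℝ) = ((m : ℝ) + 1) * ((Nat.choose m q : ℝ) / (q + 1)) := by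
  have h1 : (∑ y ∈ range (m + 1), Nat.choose y q) = Nat.choose (m + 1) (q + 1) := by
    induction m with
    | zero =>
      rcases q with _ | q
      · simp
      · rw [Nat.choose_eq_zero_of_lt (by omega : 0 + 1 < q + 1 + 1)]
        simp
    | succ m ih => rw [Finset.sum_range_succ, ih, Nat.choose_succ_succ' (m + 1) q]; ring
  have h2 : ((m + 1) * Nat.choose m q : ℝ) = (Nat.choose (m + 1) (q + 1) : ℝ) * ((q : ℝ) + 1) := by
    exact_mod_cast Nat.add_one_mul_choose_eq m q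
  have h3 : (∑ y ∈ range (m + 1), (Nat.choose y q : ℝ)) = (Nat.choose (m + 1) (q + 1) : ℝ) := by
    exact_mod_cast congrArg (Nat.cast (R := ℝ)) h1
  have h4 : (q : ℝ) + 1 ≠ 0 := by positivity
  rw [h3]
  field_simp
  linarith

theorem sum_one_add_pow (e : ℕ) (he : 1 ≤ e) :
    ∑ y ∈ range e, (1 + X : PowerSeries ℝ) ^ y = C (e : ℝ) * qs (e - 1) := by
  obtain ⟨m, rfl⟩ : ∃ m, e = m + 1 := ⟨e - 1, by omega⟩
  ext q
  rw [map_sum, coeff_C_mul, Nat.add_sub_cancel]
  unfold qs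
  rw [coeff_mk]
  simp only [coeff_pow]
  rw [sum_choose_range]
  push_cast
  ring

variable {α β : Type*} [Fintype α] [Fintype β] [DecidableEq α] [DecidableEq β]

theorem sum_box_choose (e : β → ℕ) (he : ∀ i, 1 ≤ e i) (q : ℕ) :
    ∑ y ∈ Fintype.piFinset (fun i ↦ range (e i)), (Nat.choose (∑ i, y i) q : ℝ) =
      (∏ i, (e i : ℝ)) * coeff q (∏ i, qs (e i - 1)) := by
  have h1 : ∏ i, ∑ y ∈ range (e i), (1 + X : PowerSeries ℝ) ^ y =
      C (∏ i, (e i : ℝ)) * ∏ i, qs (e i - 1) := by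
    rw [Finset.prod_congr rfl (fun i _ ↦ sum_one_add_pow (e i) (he i)), Finset.prod_mul_distrib,
      map_prod]
  rw [Finset.prod_univ_sum] at h1
  have h2 := congrArg (coeff (R := ℝ) q) h1
  rw [map_sum, coeff_C_mul] at h2
  rw [← h2]
  apply Finset.sum_congr rfl
  intro y _
  rw [Finset.prod_pow_eq_pow_sum, coeff_pow]

omit [DecidableEq α] in
theorem floor_eq (w b : α → ℕ) (D : ℕ) (hD : 0 < D) (hw : ∀ j, 0 < w j) (hb : ∀ j, b j * w j = D)
    (x : α → ℕ) : ⌊∑ j, (x j : ℚ) / b j⌋₊ = (∑ j, x j * w j) / D := by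
  have h1 : ∑ j, (x j : ℚ) / b j = ((∑ j, x j * w j : ℕ) : ℚ) / (D : ℚ) := by
    push_cast
    rw [Finset.sum_div]
    apply Finset.sum_congr rfl
    intro j _
    have h2 : (D : ℚ) = b j * w j := by exact_mod_cast (hb j).symm
    have h3 : (w j : ℚ) ≠ 0 := by have := hw j; positivity
    have h4 : (b j : ℚ) ≠ 0 := by
      intro h
      rw [h, zero_mul] at h2
      have : (D : ℚ) ≠ 0 := by positivity
      exact this h2
    rw [h2]
    field_simp
  rw [h1, Nat.floor_div_eq_div]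

/-- Formula (a). -/
theorem pg_formula (w b : α → ℕ) (e : β → ℕ) (D n : ℕ) (hD : 0 < D) (hw : ∀ j, 0 < w j)
    (hb : ∀ j, b j * w j = D) (he : ∀ i, 1 ≤ e i) :
    ((∑ x ∈ Fintype.piFinset (fun j ↦ range (b j)), ∑ y ∈ Fintype.piFinset (fun i ↦ range (e i)),
        Nat.choose ((∑ j, x j * w j) / D + ∑ i, y i) n : ℕ) : ℝ) =
      (∏ j, (b j : ℝ)) * (∏ i, (e i : ℝ)) *
        ∑ t ∈ range (n + 1), coeff (n - t) (∏ i, qs (e i - 1)) * Pt b t := by
  have hb1 : ∀ j, 1 ≤ b j := by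
    intro j
    rcases Nat.eq_zero_or_pos (b j) with h | h
    · have := hb j
      rw [h, zero_mul] at this
      omega
    · exact h
  have h1 : ∀ (x : α → ℕ) (y : β → ℕ), (Nat.choose ((∑ j, x j * w j) / D + ∑ i, y i) n : ℝ) =
      ∑ t ∈ range (n + 1), (Nat.choose ((∑ j, x j * w j) / D) t : ℝ) *
        (Nat.choose (∑ i, y i) (n - t) : ℝ) := by
    intro x y
    rw [Nat.add_choose_eq, Finset.Nat.sum_antidiagonal_eq_sum_range_succ_mk]
    push_cast
    rfl
  have hPt : ∀ t, ∑ x ∈ Fintype.piFinset (fun j ↦ range (b j)),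
      (Nat.choose ((∑ j, x j * w j) / D) t : ℝ) = (∏ j, (b j : ℝ)) * Pt b t := by
    intro t
    have := pg_eq t b hb1
    push_cast at this
    unfold Pt
    rw [← this]
    apply Finset.sum_congr rfl
    intro x _
    rw [floor_eq w b D hD hw hb]
  push_cast
  simp only [h1]
  have h2 : ∀ x : α → ℕ, ∑ y ∈ Fintype.piFinset (fun i ↦ range (e i)), ∑ t ∈ range (n + 1),
      (Nat.choose ((∑ j, x j * w j) / D) t : ℝ) * (Nat.choose (∑ i, y i) (n - t) : ℝ) =
      ∑ t ∈ range (n + 1), (Nat.choose ((∑ j, x j * w j) / D) t : ℝ) *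
        ((∏ i, (e i : ℝ)) * coeff (n - t) (∏ i, qs (e i - 1))) := by
    intro x
    rw [Finset.sum_comm]
    apply Finset.sum_congr rfl
    intro t _
    rw [← Finset.mul_sum, sum_box_choose e he]
  rw [Finset.sum_congr rfl (fun x _ ↦ h2 x), Finset.sum_comm, Finset.mul_sum]
  apply Finset.sum_congr rfl
  intro t _
  rw [← Finset.sum_mul, hPt]
  ring

/-- The coefficient in the formula for the Milnor number. -/
noncomputable def muc (k : Type*) [Field k] (w : α → ℕ) (d : β → ℕ) (n : ℕ) : k :=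
  coeff n ((∏ j, (1 + C (w j : k) * X)) * (∏ i, (1 + C (d i : k) * X))⁻¹)

omit [DecidableEq α] [DecidableEq β] in
theorem const_prod_add (k : Type*) [Field k] (d : β → ℕ) :
    constantCoeff (∏ i, (1 + C (d i : k) * X)) = 1 := by
  rw [map_prod]
  apply Finset.prod_eq_one
  intro i _
  simp

omit [DecidableEq α] [DecidableEq β] in
theorem muc_cast (w : α → ℕ) (d : β → ℕ) (n : ℕ) : ((muc ℚ w d n : ℚ) : ℝ) = muc ℝ w d n := by
  unfold muc
  set A : PowerSeries ℚ := ∏ i, (1 + C (d i : ℚ) * X) with hA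
  have h1 : A * A⁻¹ = 1 := PowerSeries.mul_inv_cancel _ (by rw [const_prod_add]; exact one_ne_zero)
  have hmap : PowerSeries.map (algebraMap ℚ ℝ) A = ∏ i, (1 + C (d i : ℝ) * X) := by
    rw [hA, map_prod]
    apply Finset.prod_congr rfl
    intro i _
    simp
  have hinv : PowerSeries.map (algebraMap ℚ ℝ) A⁻¹ = (∏ i, (1 + C (d i : ℝ) * X))⁻¹ := by
    rw [PowerSeries.eq_inv_iff_mul_eq_one (by rw [const_prod_add]; exact one_ne_zero), ← hmap,
      ← map_mul, mul_comm, h1, map_one]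
  have h2 : PowerSeries.map (algebraMap ℚ ℝ) ((∏ j, (1 + C (w j : ℚ) * X)) * A⁻¹) =
      (∏ j, (1 + C (w j : ℝ) * X)) * (∏ i, (1 + C (d i : ℝ) * X))⁻¹ := by
    rw [map_mul, hinv, map_prod]
    congr 1
    apply Finset.prod_congr rfl
    intro i _
    simp
  rw [← h2, PowerSeries.coeff_map]
  rfl

/-- Formula (b). -/
theorem muc_formula (w b : α → ℕ) (e : β → ℕ) (D n : ℕ) (hD : 0 < D) (hb : ∀ j, b j * w j = D) (he : ∀ i, 1 ≤ e i)
    (hc : Fintype.card α = n + Fintype.card β) :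
    muc ℝ w (fun i ↦ e i * D) n = (-(D : ℝ)) ^ n *
      ∑ t ∈ range (n + 1), coeff (n - t) (iv univ (fun i ↦ (((e i - 1 : ℕ) : ℝ)))) *
        (Rt b t + (-1) ^ t * Zt b) := by
  rw [← mu_formula b (fun i ↦ (((e i - 1 : ℕ) : ℝ))) n hc]
  have he' : (fun i ↦ 1 + (((e i - 1 : ℕ) : ℝ))) = fun i ↦ (e i : ℝ) := by
    funext i
    rw [Nat.cast_sub (he i)]
    simp
  rw [he']
  have h1 : PowerSeries.rescale (-(D : ℝ)) (∏ i, (1 - C (e i : ℝ) * X)) =
      ∏ i, (1 + C (((e i * D : ℕ)) : ℝ) * X) := by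
    rw [map_prod]
    apply Finset.prod_congr rfl
    intro i _
    rw [map_sub, map_one, map_mul, PowerSeries.rescale_X]
    have : PowerSeries.rescale (-(D : ℝ)) (C (e i : ℝ)) = C (e i : ℝ) := by
      ext m
      rw [PowerSeries.coeff_rescale, coeff_C]
      split_ifs with h
      · subst h; simp
      · simp
    rw [this]
    push_cast
    rw [map_mul, map_neg]
    ring
  have h2 : PowerSeries.rescale (-(D : ℝ)) (∏ j, (1 - C ((b j : ℝ)⁻¹) * X)) =
      ∏ j, (1 + C (w j : ℝ) * X) := by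
    rw [map_prod]
    apply Finset.prod_congr rfl
    intro j _
    rw [map_sub, map_one, map_mul, PowerSeries.rescale_X]
    have : PowerSeries.rescale (-(D : ℝ)) (C (b j : ℝ)⁻¹) = C (b j : ℝ)⁻¹ := by
      ext m
      rw [PowerSeries.coeff_rescale, coeff_C]
      split_ifs with h
      · subst h; simp
      · simp
    rw [this, ← mul_assoc, ← map_mul]
    have hbj : (b j : ℝ) ≠ 0 := by
      intro h
      have h' : b j = 0 := by exact_mod_cast h
      have := hb j
      rw [h', zero_mul] at this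
      omega
    have e1 : (b j : ℝ)⁻¹ * -(D : ℝ) = -(w j : ℝ) := by
      have : (D : ℝ) = b j * w j := by exact_mod_cast (hb j).symm
      rw [this]
      field_simp
    rw [e1, map_neg]
    ring
  have h3 : PowerSeries.rescale (-(D : ℝ)) (iv univ (fun i ↦ (e i : ℝ))) =
      (∏ i, (1 + C (((e i * D : ℕ)) : ℝ) * X))⁻¹ := by
    rw [PowerSeries.eq_inv_iff_mul_eq_one (by
      rw [map_prod, Finset.prod_eq_one]
      · exact one_ne_zero
      · intro i _; simp), ← h1, ← map_mul, mul_comm, prod_mul_iv, map_one]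
  unfold muc
  rw [← h2, ← h3, ← map_mul, PowerSeries.coeff_rescale]

end Pool.Agent.Helper85.KN2
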