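import Pool.Agent.Helper85.KN2.E4
import Pool.Agent.Helper87.KM.Bridge

/-!
# The Kerner-Némethi inequality for weighted homogeneous complete intersections whose weights
divide the degrees
-/

namespace Pool.Agent.Helper85.KN2

open Finset PowerSeries Pool.Agent.Helper85.KN

theorem qs_coeff {r : ℕ} (e : Fin r → ℕ) (m : ℕ) :
    coeff m (∏ i, qs (e i - 1)) = Pool.Agent.Helper87.KM.q (fun i ↦ e i - 1) m := by
  rw [Pool.Agent.Helper87.KM.q_series]
  rfl

theorem iv_coeff {r : ℕ} (ε : Fin r → ℕ) (m : ℕ) :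
    coeff m (iv univ (fun i ↦ ((ε i : ℕ) : ℝ))) = Pool.Agent.Helper87.KM.H ε m := by
  rw [Pool.Agent.Helper87.KM.H_series]
  congr 1
  unfold iv
  symm
  rw [PowerSeries.eq_inv_iff_mul_eq_one (by rw [prod_const]; exact one_ne_zero),
    ← Finset.prod_mul_distrib]
  apply Finset.prod_eq_one
  intro i _
  ext t
  rw [mul_sub, mul_one, map_sub, mul_left_comm, coeff_C_mul, coeff_mk]
  rcases t with _ | t
  · simp
  · rw [mul_comm _ X, coeff_succ_X_mul, coeff_mk, coeff_one, if_neg (by omega), pow_succ]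
    ring

/-- The inequality, in terms of `b`, `e`, `D`. -/
theorem main_ineq (n r : ℕ) (hn : 3 ≤ n) (hr : 1 ≤ r) (b : Fin (n + r) → ℕ) (e : Fin r → ℕ)
    (hb : ∀ j, 1 ≤ b j) (he : ∀ i, 1 ≤ e i) :
    ∑ t ∈ range (n + 1), coeff (n - t) (∏ i, qs (e i - 1)) * Pt b t ≤
      (Pool.Agent.Helper87.KN.rho n (n + r - 1) : ℝ) *
        (∑ t ∈ range (n + 1), coeff (n - t) (iv univ (fun i ↦ (((e i - 1 : ℕ) : ℝ)))) *
          (Rt b t + (-1) ^ t * Zt b) - (-1) ^ n / ((∏ j, (b j : ℝ)) * ∏ i, (e i : ℝ))) := by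
  have : Nonempty (Fin (n + r)) := ⟨⟨0, by omega⟩⟩
  obtain ⟨i₀, hi₀⟩ := Finite.exists_max b
  have hM : Fintype.card (Fin (n + r)) = (n + r - 1) + 1 := by
    rw [Fintype.card_fin]; omega
  have hMc : (((n + r - 1 : ℕ)) : ℝ) = (n : ℝ) + r - 1 := by
    rw [Nat.cast_sub (by omega)]
    push_cast
    ring
  have hz : ∀ i, (b i₀ : ℝ)⁻¹ ≤ (b i : ℝ)⁻¹ := fun i ↦
    inv_anti₀ (by have := hb i; positivity) (by exact_mod_cast hi₀ i)
  have hκ₁ : 0 ≤ (b i₀ : ℝ)⁻¹ - Zt b := by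
    have h1 : Zt b ≤ (b i₀ : ℝ)⁻¹ := by
      unfold Zt
      rw [← Finset.mul_prod_erase univ (fun i ↦ (b i : ℝ)⁻¹) (mem_univ i₀)]
      apply mul_le_of_le_one_right (by positivity)
      apply Finset.prod_le_one
      · intro i _; positivity
      · intro i _
        exact inv_le_one_of_one_le₀ (by exact_mod_cast hb i)
    linarith
  have hκ₂ : 0 ≤ (b i₀ : ℝ)⁻¹ * Ek b i₀ := mul_nonneg (by positivity) (Ek_nonneg b hb i₀)
  have hK1 := diff_zero_one b (n + r - 1) hM (by omega) (b i₀ : ℝ)⁻¹ hz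
  have hP2 := Pt_two b hb (n + r - 1) hM (by omega) i₀ hi₀
  have hK2 := diff_one_two b hb (n + r - 1) hM (by omega) i₀ hi₀
  have h := Pool.Agent.Helper87.KM.main85 n r hn hr (fun i ↦ e i - 1) (Pt b) (Rt b) (Zt b)
    ((b i₀ : ℝ)⁻¹ - Zt b) ((b i₀ : ℝ)⁻¹ * Ek b i₀) (Pt_zero b hb) (Rt_zero b) (Zt_nonneg b)
    (Rt_nonneg b hb) (fun t ht ↦ Rt_anti b hb (n + r - 1) t hM (by omega)) hκ₁ hκ₂
    (Pt_one b hb i₀)
    (by
      rw [hMc, Nat.choose_zero_right, Nat.choose_one_right, hMc] at hK1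
      have e1 : (n : ℝ) + r - 1 + 1 = n + r := by ring
      rw [e1, Nat.cast_one, div_one] at hK1
      exact hK1)
    (by
      rw [hMc] at hP2
      have e1 : (n : ℝ) + r - 1 - 1 = n + r - 2 := by ring
      rw [e1] at hP2
      exact hP2)
    (by
      rw [hMc, Nat.choose_one_right, hMc] at hK2
      have e1 : (n : ℝ) + r - 1 - 1 = n + r - 2 := by ring
      have e2 : (n : ℝ) + r - 1 + 1 = n + r := by ring
      rw [e1, e2] at hK2
      exact hK2)
    (fun t ht1 ht2 ↦ Pt_ge_three b hb (n + r - 1) t hM ht1 (by omega))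
  have e1 : ∑ t ∈ range (n + 1), coeff (n - t) (∏ i, qs (e i - 1)) * Pt b t =
      ∑ t ∈ range (n + 1), Pool.Agent.Helper87.KM.q (fun i ↦ e i - 1) (n - t) * Pt b t := by
    apply Finset.sum_congr rfl
    intro t _
    rw [qs_coeff]
  rw [e1]
  refine h.trans (le_of_eq ?_)
  congr 1
  have e2 : ∑ t ∈ range (n + 1), coeff (n - t) (iv univ (fun i ↦ (((e i - 1 : ℕ) : ℝ)))) *
      (Rt b t + (-1) ^ t * Zt b) =
      ∑ t ∈ range (n + 1), Pool.Agent.Helper87.KM.H (fun i ↦ e i - 1) (n - t) * Rt b t +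
        Zt b * ∑ t ∈ range (n + 1), (-1) ^ t * Pool.Agent.Helper87.KM.H (fun i ↦ e i - 1) (n - t) := by
    rw [Finset.mul_sum, ← Finset.sum_add_distrib]
    apply Finset.sum_congr rfl
    intro t _
    rw [iv_coeff (fun i ↦ e i - 1)]
    ring
  have e3 : ∏ i, ((((e i - 1 : ℕ)) : ℝ) + 1) = ∏ i, (e i : ℝ) := by
    apply Finset.prod_congr rfl
    intro i _
    rw [Nat.cast_sub (he i)]
    push_cast
    ring
  have e4 : Zt b = (∏ j, (b j : ℝ))⁻¹ := by
    unfold Zt
    rw [Finset.prod_inv_distrib]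
  rw [e2, e3]
  have e5 : (-1 : ℝ) ^ n / ((∏ j, (b j : ℝ)) * ∏ i, (e i : ℝ)) =
      Zt b * ((-1) ^ n / ∏ i, (e i : ℝ)) := by
    rw [e4]
    field_simp
  rw [e5]
  ring

theorem main (n r : ℕ) (hn : 3 ≤ n) (hr : 1 ≤ r) (w : Fin (n + r) → ℕ) (d : Fin r → ℕ)
    (hw : ∀ j, 0 < w j) (hd : ∀ i, 0 < d i) (hwd : ∀ i j, w j ∣ d i) (pg μ : ℚ)
    (hpg : pg = if ∑ j, w j ≤ ∑ i, d i then
      ∑ l ∈ range (∑ i, d i - ∑ j, w j + 1),
        coeff l ((∏ i, (1 - X ^ d i : PowerSeries ℚ)) * (∏ j, (1 - X ^ w j))⁻¹) else 0)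
    (hμ : μ = (-1) ^ n * (-1 + (∏ i, (d i : ℚ)) / (∏ j, (w j : ℚ)) *
      coeff n ((∏ j, (1 + C (w j : ℚ) * X)) * (∏ i, (1 + C (d i : ℚ) * X))⁻¹))) :
    ((n + r - 1).choose n * (n + r).factorial : ℚ) * pg ≤
      r.factorial * Nat.stirlingSecond (n + r) r * μ := by
  -- the numbers `D`, `b`, `e`
  set D : ℕ := univ.lcm w with hDdef
  have hD : 0 < D := by
    rw [Nat.pos_iff_ne_zero, hDdef, Ne, Finset.lcm_eq_zero_iff]
    rintro ⟨j, -, hj⟩
    exact (hw j).ne' hj
  have hwD : ∀ j, w j ∣ D := fun j ↦ Finset.dvd_lcm (mem_univ j)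
  choose b hb' using hwD
  have hb : ∀ j, b j * w j = D := fun j ↦ by rw [hb' j, mul_comm]
  have hDd : ∀ i, D ∣ d i := fun i ↦ Finset.lcm_dvd fun j _ ↦ hwd i j
  choose e he' using hDd
  have hed : (fun i ↦ e i * D) = d := by
    funext i
    rw [he' i, mul_comm]
  have hb1 : ∀ j, 1 ≤ b j := by
    intro j
    rcases Nat.eq_zero_or_pos (b j) with h | h
    · have := hb j
      rw [h, zero_mul] at this
      omega
    · exact h
  have he1 : ∀ i, 1 ≤ e i := by
    intro i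
    rcases Nat.eq_zero_or_pos (e i) with h | h
    · have := he' i
      rw [h, mul_zero] at this
      have := hd i
      omega
    · exact h
  have hc : Fintype.card (Fin (n + r)) = n + Fintype.card (Fin r) := by simp
  set PB' : ℝ := ∏ j, (b j : ℝ) with hPB
  set PE : ℝ := ∏ i, (e i : ℝ) with hPE
  have hPBpos : 0 < PB' := Finset.prod_pos fun j _ ↦ by have := hb1 j; positivity
  have hPEpos : 0 < PE := Finset.prod_pos fun i _ ↦ by have := he1 i; positivity
  set SP := ∑ t ∈ range (n + 1), coeff (n - t) (∏ i, qs (e i - 1)) * Pt b t with hSP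
  set SH := ∑ t ∈ range (n + 1), coeff (n - t) (iv univ (fun i ↦ (((e i - 1 : ℕ) : ℝ)))) *
    (Rt b t + (-1) ^ t * Zt b) with hSH
  have key : SP ≤ (Pool.Agent.Helper87.KN.rho n (n + r - 1) : ℝ) *
      (SH - (-1) ^ n / (PB' * PE)) := main_ineq n r hn hr b e hb1 he1
  -- the geometric genus
  have hpg' : (pg : ℝ) ≤ PB' * PE * SP := by
    have h1 := pg_formula w b e D n hD hw hb he1
    rw [← hSP, ← hPB, ← hPE] at h1
    rw [← h1]
    rw [hpg]
    split_ifs with h
    · have h2 := cum_HS (k := ℚ) w b e D n (∑ i, d i - ∑ j, w j) hD hw hb hc (by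
        have : ∑ i, e i * D = ∑ i, d i := by
          rw [← hed]
        rw [this]
        omega)
      rw [hed] at h2
      unfold cum HS at h2
      rw [h2]
      push_cast
      exact le_rfl
    · push_cast
      positivity
  -- the Milnor number
  have hμ' : (μ : ℝ) = PB' * PE * SH - (-1) ^ n := by
    have h1 : (μ : ℝ) = (-1) ^ n * (-1 + (∏ i, (d i : ℝ)) / (∏ j, (w j : ℝ)) * muc ℝ w d n) := by
      rw [← muc_cast, hμ]
      unfold muc
      push_cast
      rfl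
    have h2 := muc_formula w b e D n hD hb he1 hc
    rw [hed, ← hSH] at h2
    have hDr : (D : ℝ) ≠ 0 := by positivity
    have h3 : (∏ i, (d i : ℝ)) = PE * (D : ℝ) ^ r := by
      rw [← hed]
      push_cast
      rw [Finset.prod_mul_distrib, Finset.prod_const, card_univ, Fintype.card_fin]
    have h4 : PB' * (∏ j, (w j : ℝ)) = (D : ℝ) ^ (n + r) := by
      rw [hPB, ← Finset.prod_mul_distrib]
      have : ∀ j ∈ (univ : Finset (Fin (n + r))), (b j : ℝ) * w j = D := fun j _ ↦ by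
        exact_mod_cast hb j
      rw [Finset.prod_congr rfl this, Finset.prod_const, card_univ, Fintype.card_fin]
    have hW : (∏ j, (w j : ℝ)) ≠ 0 := by
      apply Finset.prod_ne_zero_iff.2
      intro j _
      have := hw j
      positivity
    have h5 : (∏ i, (d i : ℝ)) / (∏ j, (w j : ℝ)) * (-(D : ℝ)) ^ n = (-1) ^ n * (PB' * PE) := by
      rw [h3, div_mul_eq_mul_div, div_eq_iff hW]
      have : (-(D : ℝ)) ^ n = (-1) ^ n * (D : ℝ) ^ n := by rw [← mul_pow]; ring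
      rw [this]
      linear_combination (-((-1) ^ n * PE)) * h4 + ((-1) ^ n * PE) * (pow_add (D : ℝ) n r).symm
    rw [h1, h2, ← mul_assoc, h5]
    have h6 : ((-1 : ℝ) ^ n) * (-1) ^ n = 1 := by rw [← mul_pow]; norm_num
    linear_combination (PB' * PE * SH) * h6
  -- conclusion
  have hc0 : (0 : ℝ) < ((n + r - 1).choose n : ℝ) := by
    have := Nat.choose_pos (show n ≤ n + r - 1 by omega)
    exact_mod_cast this
  have hf : (0 : ℝ) < ((n + r).factorial : ℝ) := by
    exact_mod_cast Nat.factorial_pos _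
  have hρ : (Pool.Agent.Helper87.KN.rho n (n + r - 1) : ℝ) * ((n + r - 1).choose n *
      (n + r).factorial) = r.factorial * Nat.stirlingSecond (n + r) r := by
    unfold Pool.Agent.Helper87.KN.rho
    rw [show n + r - 1 + 1 = n + r by omega, Pool.Agent.Helper87.KN.c_stirling]
    push_cast
    field_simp
  have h1 : (pg : ℝ) ≤ (Pool.Agent.Helper87.KN.rho n (n + r - 1) : ℝ) * μ := by
    refine hpg'.trans ((mul_le_mul_of_nonneg_left key (by positivity)).trans (le_of_eq ?_))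
    rw [hμ']
    field_simp
  have h2 : ((n + r - 1).choose n * (n + r).factorial : ℝ) * pg ≤
      r.factorial * Nat.stirlingSecond (n + r) r * μ := by
    rw [← hρ]
    have := mul_le_mul_of_nonneg_left h1 (mul_pos hc0 hf).le
    linarith
  exact_mod_cast h2

end Pool.Agent.Helper85.KN2
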